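import Pool.Agent.W959.NX.NumB

set_option autoImplicit false

/-! Project NX of helper423, part NUM: the numerical relation. -/

namespace Pool.Agent.W959.NX

open MvPolynomial Pool.Agent.H628R4.TZ Pool.Agent.W425.SM Pool.Agent.W525.SM
open Pool.Agent.W596.SL (reindex shift_ex fq_zero gam)
open Pool.Agent.W462.SG (ym ym_apply term_mono' mu ym_le ym_sub mu_fin)
open Pool.Agent.W368.SV (prod_X_ym cb ap ap_left ap_right ap_sum Ex_ap cb_ap Qy coeff_mul_C'
  coeff_eval_C cast_eval exists_mu)
open Pool.Agent.W342.SH (G eval_G G_zero)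
open Pool.Agent.W423.MG (gs sum_gs prod_pow_groups sgm eval_sgm gs_cast eval_aev)
open Pool.Agent.W372.SG (ed ed_apply)
open Pool.Agent.W423.NX

variable {r N q P : ℕ} {F : Type} [Field F] [Algebra F ℂ]

/-- main computation -/
theorem mainX [CharZero F] (loc : Prop) (g : Fin r → Fin (P+1)) (gw : Fin q → Fin (P+1))
    (v : Fin r → Fin N → ℕ) (w : Fin q → Fin N → ℕ) (bb : Fin q → F)
    (h : Fin (P+1) → MvPolynomial (Fin N) F)
    (hgen : ∀ k, genX g v h k = gq (Fin.append g gw) v w bb k)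
    (hw : ∀ l : Fin q, ∃ lam : Fin r → ℝ, (∀ j, 0 ≤ lam j) ∧ (∀ j, g j ≠ gw l → lam j = 0) ∧
      ∑ j, lam j = 1 ∧ ∀ i, ∑ j, lam j * (v j i : ℝ) ≤ (w l i : ℝ))
    (m : Fin (P+1) → ℕ) (E : Set (Fin (P+1) → ℕ)) (bs : (Fin (P+1) → ℕ) → F) (θ : Fin r → ℝ)
    (hθ : LinearIndependent ℚ θ) (hb : GenEqX loc g v h m E bs) :
    NumRel loc g v θ m E (fun s => algebraMap F ℂ (bs s)) := by
  classical
  obtain ⟨A, D, T, Q, hA, hloc, hP⟩ := hb
  simp only [hgen] at hP
  -- the exponent
  obtain ⟨μ0, hμ0, hmax⟩ := exists_mu (coeff 0 A).support (by rwa [support_nonempty]) θ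
  set φ : F →+* ℂ := algebraMap F ℂ with hφ
  set al : (Fin (r + q) → ℤ) → F := aX (Fin.append g gw) v w bb A μ0 with hal
  set a0 : ℂ := φ (al 0) with ha0
  have ha0ne : a0 ≠ 0 := by
    rw [ha0, hal, aX_zero]
    exact (map_ne_zero φ).2 (mem_support_iff.1 hμ0)
  obtain ⟨S, hS, hq⟩ := num_rhsX g gw v w bb m D T Q μ0
  obtain ⟨S', hS', hl⟩ := num_lhsX g gw v w bb A μ0
  obtain ⟨M, hM1, hM⟩ : ∃ M : ℕ, 1 ≤ M ∧ ∀ c ∈ S ∪ S', ∀ j, c j ≤ M := by
    refine ⟨∑ c ∈ S ∪ S', ∑ j, (c j).toNat + 1, by omega, fun c hc j => ?_⟩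
    have h1 : (c j).toNat ≤ ∑ j, (c j).toNat :=
      Finset.single_le_sum (f := fun j => (c j).toNat) (fun _ _ => Nat.zero_le _)
        (Finset.mem_univ j)
    have h2 : ∑ j, (c j).toNat ≤ ∑ c ∈ S ∪ S', ∑ j, (c j).toNat :=
      Finset.single_le_sum (f := fun c : Fin (r + q) → ℤ => ∑ j, (c j).toNat)
        (fun _ _ => Nat.zero_le _) hc
    omega
  have hqM := hq M (fun c hc => hM c (Finset.mem_union_left _ hc))
  have hlM := hl M (fun c hc => hM c (Finset.mem_union_right _ hc))
  -- the constants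
  set kp : (Fin (r + q) → ℤ) → ℂ := fun c => ∏ l : Fin q, G M (c (Fin.natAdd r l)) 0 with hkp
  set gx : (Fin (r + q) → ℤ) → (Fin N) → MvPolynomial (Fin r) ℂ := fun c i =>
    el v i - 1 + C ((Sh (Fin.append v w) c i : ℤ) : ℂ) with hgx
  set sp : (Fin (P+1) →₀ ℕ) → MvPolynomial (Fin r) ℂ := fun β => ∏ k, sgm g k ^ β k with hsp
  set qt : (Fin (r + q) → ℤ) → MvPolynomial (Fin r) ℂ := fun c =>
    C (kp c) * (∏ j : Fin r, fq M j (c (Fin.castAdd q j))) *
      (∏ i ∈ Bc (Fin.append v w) c, dd v i (Sh (Fin.append v w) c i).toNat) *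
      ∑ β ∈ T, sp β * aeval (gx c) (map φ (gX (Fin.append g gw) v w bb m D (Q β) μ0 c)) with hqt
  -- the full relation
  have hfull : ∀ u : Fin r → ℕ, gs g u ∈ E →
      φ (bs (gs g u)) * eval (fun j => (u j : ℂ)) (∑ c ∈ S', (C (φ (al c) * kp c) *
      ∏ j : Fin r, (ff M j (c (Fin.castAdd q j)) * fq M j (c (Fin.castAdd q j))))) =
      (∏ k, ∏ i ∈ Finset.range (m k), (((gs g u k : ℕ) : ℂ) + i + 1)) *
      eval (fun j => (u j : ℂ)) (∑ c ∈ S, (∏ i ∈ Bc (Fin.append v w) c, el v i) *
        ((∏ j : Fin r, if c (Fin.castAdd q j) < 0 then X j * dm M j else 1) * qt c)) := by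
    intro u hu
    set wt : (Fin (P+1) →₀ ℕ) → F := fun β => ∏ k, ((gs g u k : ℕ) : F) ^ β k with hwt
    -- numerical identity
    have hn0 : (∏ k, ((gs g u k).factorial : ℂ)) ≠ 0 :=
      Finset.prod_ne_zero_iff.2 fun k _ => by exact_mod_cast Nat.factorial_ne_zero _
    have hnum : φ (bs (gs g u)) * ∑ c ∈ S', φ (al c) *
          (∏ j, eval (fun m => (ap q u m : ℂ)) (ff M j (c j) * fq M j (c j))) =
        (∏ k, ∏ i ∈ Finset.range (m k), (((gs g u k : ℕ) : ℂ) + i + 1)) * ∑ c ∈ S,
          (∏ j, eval (fun m => (ap q u m : ℂ)) (ff M j (c j) * fq M j (c j))) *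
          (∏ i, (((∑ j, u j * v j i : ℕ) + Sh (Fin.append v w) c i).toNat.descFactorial
            (Sh (Fin.append v w) c i).toNat : ℂ)) *
          ∑ β ∈ T, φ (wt β) *
            eval (fun x => ((Ex v u x : ℕ) : ℂ) + ((Sh (Fin.append v w) c x : ℤ) : ℂ))
              (map φ (gX (Fin.append g gw) v w bb m D (Q β) μ0 c)) := by
      have h1 := congrArg (fun P => φ (coeff (ym u + μ0) P)) (hP (gs g u) hu (Ex v u))
      refine mul_left_cancel₀ hn0 ?_
      rw [← hqM u wt, ← h1, coeff_C_mul, map_mul]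
      linear_combination (-(φ (bs (gs g u)))) * hlM u
    -- splitting of the product
    have hsplit : ∀ c : Fin (r + q) → ℤ,
        (∏ j, eval (fun m => (ap q u m : ℂ)) (ff M j (c j) * fq M j (c j))) =
        kp c * ∏ j : Fin r, eval (fun m => (u m : ℂ))
          (ff M j (c (Fin.castAdd q j)) * fq M j (c (Fin.castAdd q j))) := by
      intro c
      simp only [eval_G]
      rw [Fin.prod_univ_add, mul_comm, hkp]
      simp [ap_left, ap_right]
    have e1 : eval (fun j => (u j : ℂ)) (∑ c ∈ S', (C (φ (al c) * kp c) *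
      ∏ j : Fin r, (ff M j (c (Fin.castAdd q j)) * fq M j (c (Fin.castAdd q j))))) =
        ∑ c ∈ S', φ (al c) *
          (∏ j, eval (fun m => (ap q u m : ℂ)) (ff M j (c j) * fq M j (c j))) := by
      rw [map_sum]
      refine Finset.sum_congr rfl fun c _ => ?_
      rw [map_mul, eval_C, map_prod, hsplit]
      ring
    rw [e1, hnum, map_sum]
    congr 1
    refine Finset.sum_congr rfl fun c hc => ?_
    have hA : eval (fun j => (u j : ℂ)) (∏ j : Fin r, if c (Fin.castAdd q j) < 0 then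
          (X j * dm M j : MvPolynomial (Fin r) ℂ) else 1) *
          eval (fun j => (u j : ℂ)) (∏ j : Fin r, fq M j (c (Fin.castAdd q j))) =
          ∏ j : Fin r, eval (fun m => (u m : ℂ))
            (ff M j (c (Fin.castAdd q j)) * fq M j (c (Fin.castAdd q j))) := by
      simp only [map_prod, ← Finset.prod_mul_distrib, map_mul]
      rfl
    have hB : eval (fun j => (u j : ℂ)) (∏ i ∈ Bc (Fin.append v w) c, el v i) *
          eval (fun j => (u j : ℂ)) (∏ i ∈ Bc (Fin.append v w) c,
            dd v i (Sh (Fin.append v w) c i).toNat) =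
          ∏ i, (((∑ j, u j * v j i : ℕ) + Sh (Fin.append v w) c i).toNat.descFactorial
              (Sh (Fin.append v w) c i).toNat : ℂ) := by
      rw [← Finset.prod_subset (Finset.subset_univ (Bc (Fin.append v w) c))]
      · rw [map_prod, map_prod, ← Finset.prod_mul_distrib]
        refine Finset.prod_congr rfl fun i hi => ?_
        have h10 : 0 < Sh (Fin.append v w) c i := by simpa [Bc, Sh] using hi
        rw [eval_dd _ _ _ (by omega), usum]
        have h11 : (((∑ j, u j * v j i : ℕ) : ℤ) + Sh (Fin.append v w) c i).toNat =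
            ∑ j, u j * v j i + (Sh (Fin.append v w) c i).toNat := by omega
        rw [h11]
      · intro i _ hi
        have h10 : ¬ 0 < Sh (Fin.append v w) c i := by simpa [Bc, Sh] using hi
        have : (Sh (Fin.append v w) c i).toNat = 0 := by omega
        rw [this]; simp
    have hspe : ∀ β, eval (fun j => (u j : ℂ)) (sp β) = φ (wt β) := by
      intro β
      rw [hsp, hwt]
      simp only [map_prod, map_pow, eval_sgm, gs_cast, map_natCast]
    have hC : eval (fun j => (u j : ℂ)) (∑ β ∈ T, sp β *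
          aeval (gx c) (map φ (gX (Fin.append g gw) v w bb m D (Q β) μ0 c))) =
          ∑ β ∈ T, φ (wt β) *
            eval (fun x => ((Ex v u x : ℕ) : ℂ) + ((Sh (Fin.append v w) c x : ℤ) : ℂ))
              (map φ (gX (Fin.append g gw) v w bb m D (Q β) μ0 c)) := by
      rw [map_sum]
      refine Finset.sum_congr rfl fun β _ => ?_
      rw [map_mul, hspe, eval_aev]
      congr 3
      funext x
      rw [hgx]
      simp only [map_add, map_sub, map_one, eval_C]
      rw [eval_el, usum, Ex_apply]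
      push_cast
      ring
    rw [hsplit, ← hA, ← hB, ← hC, hqt]
    simp only [map_mul, eval_C]
    ring
  have h0S : (0 : Fin (r + q) → ℤ) ∈ S' := by
    rw [hS']
    refine ⟨fun l => le_rfl, ?_⟩
    intro h
    exact ha0ne (by rw [ha0, hal, h, map_zero])
  have hk0 : a0 * kp 0 ≠ 0 := mul_ne_zero ha0ne (Finset.prod_ne_zero_iff.2 fun l _ => G_zero M)
  set κ : ℂ := (a0 * kp 0)⁻¹ with hκ
  have hCκ : (C κ : MvPolynomial (Fin r) ℂ) * C (a0 * kp 0) = 1 := by
    rw [← C_mul, hκ, inv_mul_cancel₀ hk0, C_1]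
  -- the two sides, divided by the constant
  have hleft : C κ * ∑ c ∈ S', (C (φ (al c) * kp c) *
      ∏ j : Fin r, (ff M j (c (Fin.castAdd q j)) * fq M j (c (Fin.castAdd q j)))) =
      ∏ j, dm M j + ∑ c ∈ S'.erase 0,
        (∏ j : Fin r, if c (Fin.castAdd q j) < 0 then X j * dm M j else 1) *
        (C (κ * (φ (al c) * kp c)) * ∏ j : Fin r, fq M j (c (Fin.castAdd q j))) := by
    rw [← Finset.add_sum_erase S' _ h0S, mul_add]
    have e0 : C (φ (al 0) * kp 0) *
        ∏ j : Fin r, (ff M j ((0 : Fin (r + q) → ℤ) (Fin.castAdd q j)) *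
          fq M j ((0 : Fin (r + q) → ℤ) (Fin.castAdd q j))) =
        C (a0 * kp 0) * (∏ j, dm M j : MvPolynomial (Fin r) ℂ) := by
      rw [← ha0]
      congr 1
      refine Finset.prod_congr rfl fun j _ => ?_
      rw [Pi.zero_apply, fq_zero]
      unfold ff
      rw [if_neg (lt_irrefl 0), one_mul]
    rw [e0, ← mul_assoc, hCκ, one_mul, Finset.mul_sum]
    congr 1
    refine Finset.sum_congr rfl fun c _ => ?_
    have e3 : ∏ j : Fin r, (ff M j (c (Fin.castAdd q j)) * fq M j (c (Fin.castAdd q j))) =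
        (∏ j : Fin r, if c (Fin.castAdd q j) < 0 then
          (X j * dm M j : MvPolynomial (Fin r) ℂ) else 1) *
          ∏ j : Fin r, fq M j (c (Fin.castAdd q j)) := by
      rw [Finset.prod_mul_distrib]
      rfl
    rw [e3, C_mul (a := κ)]
    ring
  have hright : C κ * ∑ c ∈ S, (∏ i ∈ Bc (Fin.append v w) c, el v i) *
        ((∏ j : Fin r, if c (Fin.castAdd q j) < 0 then X j * dm M j else 1) * qt c) =
      ∑ c ∈ S, (∏ i ∈ Bc (Fin.append v w) c, el v i) *
        ((∏ j : Fin r, if c (Fin.castAdd q j) < 0 then X j * dm M j else 1) *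
          (C κ * qt c)) := by
    rw [Finset.mul_sum]
    exact Finset.sum_congr rfl fun c _ => by ring
  -- indexing by `Fin n`
  have hidx : ∀ (T : Finset (Fin (r + q) → ℤ)) (g : (Fin (r + q) → ℤ) → MvPolynomial (Fin r) ℂ),
      ∑ c ∈ T, g c = ∑ k : Fin T.card, g (T.equivFin.symm k) := by
    intro T g
    rw [← Finset.sum_coe_sort T]
    exact (Equiv.sum_comp T.equivFin.symm (fun c : T => g c)).symm
  have hrel : ∀ u : Fin r → ℕ, gs g u ∈ E →
      φ (bs (gs g u)) * eval (fun j => (u j : ℂ)) (∏ j, dm M j + ∑ c ∈ S'.erase 0,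
        (∏ j : Fin r, if c (Fin.castAdd q j) < 0 then X j * dm M j else 1) *
        (C (κ * (φ (al c) * kp c)) * ∏ j : Fin r, fq M j (c (Fin.castAdd q j)))) =
      (∏ k, ∏ i ∈ Finset.range (m k), (((gs g u k : ℕ) : ℂ) + i + 1)) *
      eval (fun j => (u j : ℂ)) (∑ c ∈ S, (∏ i ∈ Bc (Fin.append v w) c, el v i) *
        ((∏ j : Fin r, if c (Fin.castAdd q j) < 0 then X j * dm M j else 1) *
          (C κ * qt c))) := by
    intro u hu
    rw [← hleft, ← hright, map_mul, map_mul (eval fun j => (u j : ℂ)) (C κ), eval_C]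
    linear_combination κ * hfull u hu
  simp only [hidx] at hrel
  refine ⟨M, S.card, (S'.erase 0).card, fun k j => (S.equivFin.symm k : Fin (r + q) → ℤ)
    (Fin.castAdd q j), fun k => Bc (Fin.append v w) (S.equivFin.symm k),
    fun k => C κ * qt (S.equivFin.symm k),
    fun k j => ((S'.erase 0).equivFin.symm k : Fin (r + q) → ℤ) (Fin.castAdd q j),
    fun k => C (κ * (φ (al ((S'.erase 0).equivFin.symm k)) *
      kp ((S'.erase 0).equivFin.symm k))) *
          ∏ j : Fin r, fq M j (((S'.erase 0).equivFin.symm k : Fin (r + q) → ℤ)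
            (Fin.castAdd q j)), hM1, ?_, ?_, ?_, hrel⟩
  · intro k
    obtain ⟨hcD, hc1⟩ := hS _ (S.equivFin.symm k).2
    set c : Fin (r + q) → ℤ := (S.equivFin.symm k : Fin (r + q) → ℤ) with hc
    obtain ⟨l, hl0, hl1, hl2⟩ := combX g gw v w hw c hcD
    refine ⟨l, hl0, fun k' => by rw [hl1, hc1]; norm_num, fun i hi => (hl2 i).trans ?_⟩
    have h10 : ¬ 0 < Sh (Fin.append v w) c i := by simpa [Bc, Sh] using hi
    exact_mod_cast not_lt.1 h10
  · intro k
    have hk := ((S'.erase 0).equivFin.symm k).2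
    set c : Fin (r + q) → ℤ := ((S'.erase 0).equivFin.symm k : Fin (r + q) → ℤ) with hc
    rw [Finset.mem_erase, hS'] at hk
    obtain ⟨hc0, hcD, hca⟩ := hk
    have hcond : (∀ k, gs (Fin.append g gw) c k = 0) ∧ (∀ i, Sh (Fin.append v w) c i ≤ 0) ∧
        (∀ j, c (Fin.castAdd q j) ≤ μ0 j) := by
      by_contra h5
      apply hca
      unfold aX
      rw [if_neg h5]
    obtain ⟨h3, h4, h4'⟩ := hcond
    have hval : aX (Fin.append g gw) v w bb A μ0 c =
        coeff (mu μ0 (fun j => c (Fin.castAdd q j)))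
        (coeff (gam (Fin.append v w) c) A) * cb bb c := by
      unfold aX
      rw [if_pos ⟨h3, h4, h4'⟩]
    have hcs : ∑ j, c j = 0 := by
      rw [← sum_gs (Fin.append g gw) c]
      exact Finset.sum_eq_zero fun k _ => h3 k
    by_cases h5 : ∀ i, Sh (Fin.append v w) c i = 0
    · left
      have h6 : gam (Fin.append v w) c = 0 := by
        ext i
        simp [gam, h5]
      rw [hval, h6] at hca
      obtain ⟨h7, h7'⟩ := hmax (mu μ0 (fun j => c (Fin.castAdd q j)))
        (mem_support_iff.2 (left_ne_zero_of_mul hca))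
      have h8z : ∀ j, ((mu μ0 (fun j => c (Fin.castAdd q j)) j : ℕ) : ℤ) =
          (μ0 j : ℤ) - c (Fin.castAdd q j) := by
        intro j
        have := h4' j
        simp only [mu, Finsupp.equivFunOnFinite_symm_apply_apply]
        omega
      have h8 : ∀ j, ((mu μ0 (fun j => c (Fin.castAdd q j)) j : ℕ) : ℝ) =
          (μ0 j : ℝ) - (c (Fin.castAdd q j) : ℝ) := by
        intro j
        have h10 : ((((mu μ0 (fun j => c (Fin.castAdd q j)) j : ℕ) : ℤ)) : ℝ) =
          (((μ0 j : ℤ) - c (Fin.castAdd q j) : ℤ) : ℝ) := by rw [h8z]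
        push_cast at h10
        exact h10
      have h11 : ((∑ j, mu μ0 (fun j => c (Fin.castAdd q j)) j : ℕ) : ℤ) =
          ((∑ j, μ0 j : ℕ) : ℤ) - ∑ j, c (Fin.castAdd q j) := by
        push_cast
        rw [← Finset.sum_sub_distrib]
        exact Finset.sum_congr rfl fun j _ => h8z j
      have hcs' := hcs
      rw [Fin.sum_univ_add] at hcs'
      have h12 : 0 ≤ ∑ l : Fin q, c (Fin.natAdd r l) := Finset.sum_nonneg fun l _ => hcD l
      have h13 : ∑ l : Fin q, c (Fin.natAdd r l) = 0 := by omega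
      have h14 : ∑ j, c (Fin.castAdd q j) = 0 := by omega
      have h15 : ∀ l : Fin q, c (Fin.natAdd r l) = 0 := fun l =>
        (Finset.sum_eq_zero_iff_of_nonneg (fun l _ => hcD l)).1 h13 l (Finset.mem_univ l)
      have h16 := h7' (by omega)
      have h9 : 0 ≤ ∑ j, (c (Fin.castAdd q j) : ℝ) * θ j := by
        have h10 : ∑ j, ((mu μ0 (fun j => c (Fin.castAdd q j)) j : ℕ) : ℝ) * θ j =
            ∑ j, (μ0 j : ℝ) * θ j - ∑ j, (c (Fin.castAdd q j) : ℝ) * θ j := by
          rw [← Finset.sum_sub_distrib]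
          refine Finset.sum_congr rfl fun j _ => ?_
          rw [h8]; ring
        rw [h10] at h16
        linarith
      refine ⟨fun k' => ?_, fun i => ?_, lt_of_le_of_ne h9 fun h => hc0 ?_⟩
      · have h17 := h3 k'
        rw [gs_append] at h17
        have h18 : gs gw (fun l => c (Fin.natAdd r l)) k' = 0 := by
          unfold gs
          refine Finset.sum_eq_zero fun l _ => ?_
          simp [h15 l]
        rw [h18, add_zero] at h17
        exact h17
      · have h17 := h5 i
        rw [Pool.Agent.W342.SH.Sh_split] at h17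
        have h18 : ∑ j, c (Fin.castAdd q j) * (v j i : ℤ) = 0 := by simpa [h15] using h17
        exact h18
      · have h11 := Fintype.linearIndependent_iff.1 hθ
          (fun j => ((c (Fin.castAdd q j) : ℤ) : ℚ)) (by
          rw [h]
          refine Finset.sum_congr rfl fun j _ => ?_
          rw [Rat.smul_def]
          push_cast
          rfl)
        funext j
        refine Fin.addCases (fun j => ?_) (fun l => ?_) j
        · exact_mod_cast h11 j
        · exact h15 l
    · right
      push Not at h5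
      obtain ⟨i, hi⟩ := h5
      obtain ⟨l, hl0, hl1, hl2⟩ := combX g gw v w hw c hcD
      refine ⟨?_, l, hl0, fun k' => by rw [hl1, h3]; norm_num, fun i => (hl2 i).trans
        (by exact_mod_cast h4 i), i, (hl2 i).trans_lt
        (by exact_mod_cast lt_of_le_of_ne (h4 i) hi)⟩
      by_contra hl'
      apply hca
      rw [hval, hloc hl' (gam (Fin.append v w) c), coeff_zero, zero_mul]
      intro h6
      have h7 := DFunLike.congr_fun h6 i
      simp only [gam, Finsupp.equivFunOnFinite_symm_apply_apply, Finsupp.coe_zero,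
        Pi.zero_apply] at h7
      have h8 := h4 i
      omega
  · intro k
    set c : Fin (r + q) → ℤ := ((S'.erase 0).equivFin.symm k : Fin (r + q) → ℤ) with hc
    refine Dvd.dvd.mul_left ?_ _
    rw [← Finset.prod_filter_mul_prod_filter_not Finset.univ
      (fun j => c (Fin.castAdd q j) = 0)]
    refine Dvd.dvd.mul_right (dvd_of_eq ?_) _
    refine Finset.prod_congr rfl fun j hj => ?_
    have h1 : c (Fin.castAdd q j) = 0 := (Finset.mem_filter.1 hj).2
    change dm M j = fq M j (c (Fin.castAdd q j))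
    rw [h1, fq_zero]

theorem taskNum : TaskNum := by
  intro r N P F _ _ loc g v h m E bs θ hθ hNP hb
  have : CharZero F := (algebraMap F ℂ).charZero
  obtain ⟨q, gw, w, b, hw, hgen⟩ := genX_append g v h
  refine mainX loc g gw v w b h hgen (fun l => ?_) m E bs θ hθ hb
  obtain ⟨e, he, hew⟩ := hw l
  obtain ⟨lam, h1, h2, h3, h4, -⟩ := hNP (gw l) e he
  exact ⟨lam, h1, h2, h3, fun i => by rw [hew i]; exact h4 i⟩

end Pool.Agent.W959.NX
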