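import Pool.Agent.W423.NX.Defs
import Pool.Agent.W423.MG.Alg3
import Pool.Agent.W368.SV.V2

set_option autoImplicit false

/-! Project NX of helper423, part NUM: extraction of the coefficients (adapted from
Pool.Agent.W423.MG.Alg2, Alg3 and Pool.Agent.W368.SV.V2a, V2). -/

namespace Pool.Agent.W959.NX

open MvPolynomial Pool.Agent.H628R4.TZ Pool.Agent.W425.SM Pool.Agent.W525.SM
open Pool.Agent.W596.SL (reindex shift_ex fq_zero gam)
open Pool.Agent.W462.SG (ym ym_apply term_mono' mu ym_le ym_sub mu_fin)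
open Pool.Agent.W368.SV (prod_X_ym cb ap ap_left ap_right ap_sum Ex_ap cb_ap Qy coeff_mul_C'
  coeff_eval_C cast_eval exists_mu)
open Pool.Agent.W423.MG (gs sum_gs prod_pow_groups)
open Pool.Agent.W372.SG (ed ed_apply)
open Pool.Agent.W423.NX

variable {r N q P : ℕ} {F : Type} [Field F]

/-- the generic polynomials, with the two systems of exponents -/
noncomputable def gq (ga : Fin (r + q) → Fin (P+1)) (v : Fin r → Fin N → ℕ)
    (w : Fin q → Fin N → ℕ) (b : Fin q → F) (k : Fin (P+1)) :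
    MvPolynomial (Fin N) (MvPolynomial (Fin r) F) :=
  ∑ j, if ga j = k then C (Fin.append (fun j => (X j : MvPolynomial (Fin r) F))
    (fun l => C (b l)) j) * ∏ i, X i ^ (Fin.append v w) j i else 0

/-- `genX` as a sum over two systems of exponents -/
lemma genX_append (g : Fin r → Fin (P+1)) (v : Fin r → Fin N → ℕ)
    (h : Fin (P+1) → MvPolynomial (Fin N) F) :
    ∃ (q : ℕ) (gw : Fin q → Fin (P+1)) (w : Fin q → Fin N → ℕ) (b : Fin q → F),
      (∀ l, ∃ e ∈ (h (gw l)).support, ∀ i, w l i = e i) ∧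
        ∀ k, genX g v h k = gq (Fin.append g gw) v w b k := by
  classical
  let Z := Σ k : Fin (P+1), (h k).support
  let e := Fintype.equivFin Z
  refine ⟨Fintype.card Z, fun l => (e.symm l).1, fun l i => ((e.symm l).2 : Fin N →₀ ℕ) i,
    fun l => coeff ((e.symm l).2 : Fin N →₀ ℕ) (h (e.symm l).1),
    fun l => ⟨_, (e.symm l).2.2, fun i => rfl⟩, fun k => ?_⟩
  unfold genX gq
  rw [Fin.sum_univ_add]
  simp only [Fin.append_left, Fin.append_right]
  congr 1
  have h1 : h k = ∑ g ∈ (h k).support, monomial g (coeff g (h k)) :=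
    (h k).support_sum_monomial_coeff.symm
  have h2 : ∀ g : Fin N →₀ ℕ, (map C (monomial g (coeff g (h k))) :
      MvPolynomial (Fin N) (MvPolynomial (Fin r) F)) =
      C (C (coeff g (h k))) * ∏ i, X i ^ g i := by
    intro g
    rw [map_monomial, monomial_eq, Finsupp.prod_fintype _ _ (by simp)]
  conv_lhs => rw [h1]
  rw [map_sum, ← Finset.sum_coe_sort (h k).support]
  have h3 : ∑ l : Fin (Fintype.card Z), (if (e.symm l).1 = k then
      (C (C (coeff ((e.symm l).2 : Fin N →₀ ℕ) (h (e.symm l).1))) *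
        ∏ i, X i ^ ((e.symm l).2 : Fin N →₀ ℕ) i :
        MvPolynomial (Fin N) (MvPolynomial (Fin r) F)) else 0) =
      ∑ z : Z, (if z.1 = k then
      (C (C (coeff (z.2 : Fin N →₀ ℕ) (h z.1))) *
        ∏ i, X i ^ (z.2 : Fin N →₀ ℕ) i :
        MvPolynomial (Fin N) (MvPolynomial (Fin r) F)) else 0) :=
    Equiv.sum_comp e.symm (fun z : Z => (if z.1 = k then
      (C (C (coeff (z.2 : Fin N →₀ ℕ) (h z.1))) *
        ∏ i, X i ^ (z.2 : Fin N →₀ ℕ) i :
        MvPolynomial (Fin N) (MvPolynomial (Fin r) F)) else 0))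
  rw [h3, Fintype.sum_sigma, Finset.sum_eq_single k]
  · refine Finset.sum_congr rfl fun l _ => ?_
    rw [if_pos rfl]
    exact h2 _
  · intro k' _ hk'
    refine Finset.sum_eq_zero fun l _ => ?_
    rw [if_neg hk']
  · intro h; exact absurd (Finset.mem_univ k) h

/-- the coefficients of the expansion -/
noncomputable def mlF (F : Type) [Field F] {P n : ℕ} (s : Fin (P+1) → ℕ) (γ : Fin n → ℕ) : F :=
  (∏ k, ((s k).factorial : F)) * (∏ j, ((γ j).factorial : F))⁻¹

lemma mlF_eq [CharZero F] {n : ℕ} (g : Fin n → Fin (P+1)) (s : Fin (P+1) → ℕ) (γ : Fin n → ℕ)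
    (h : gs g γ = s) :
    (Nat.multinomial Finset.univ γ : F) = (Nat.multinomial Finset.univ s : F) * mlF F s γ := by
  have h1 := Nat.multinomial_spec Finset.univ γ
  have h2 := Nat.multinomial_spec Finset.univ s
  have h3 : ∑ k, s k = ∑ j, γ j := by rw [← h, sum_gs]
  rw [h3] at h2
  have h4 : (∏ j, ((γ j).factorial : F)) * (Nat.multinomial Finset.univ γ : F) =
      (∏ k, ((s k).factorial : F)) * (Nat.multinomial Finset.univ s : F) := by
    exact_mod_cast h1.trans h2.symm
  have h5 : (∏ j, ((γ j).factorial : F)) ≠ 0 :=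
    Finset.prod_ne_zero_iff.2 fun j _ => by exact_mod_cast Nat.factorial_ne_zero _
  unfold mlF
  rw [← mul_assoc, mul_comm (Nat.multinomial Finset.univ s : F), ← h4]
  field_simp

/-- the expansion -/
lemma gq_prod [CharZero F] (ga : Fin (r + q) → Fin (P+1)) (v : Fin r → Fin N → ℕ)
    (w : Fin q → Fin N → ℕ) (b : Fin q → F) (s : Fin (P+1) → ℕ) :
    ∏ k, gq ga v w b k ^ s k =
      ∑ γ ∈ Finset.piAntidiag Finset.univ (∑ k, s k), if gs ga γ = s then
        monomial (Ex (Fin.append v w) γ) (monomial (ym (fun j => γ (Fin.castAdd q j)))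
          (mlF F s γ * ∏ l, b l ^ γ (Fin.natAdd r l))) else 0 := by
  classical
  have hC : ∀ x : MvPolynomial (Fin N) (MvPolynomial (Fin r) F),
      ((Nat.multinomial Finset.univ s : ℕ) : MvPolynomial (Fin N) (MvPolynomial (Fin r) F)) * x =
      C (C (Nat.multinomial Finset.univ s : F)) * x := by
    intro x
    congr 1
  have hinj : ∀ x y : MvPolynomial (Fin N) (MvPolynomial (Fin r) F),
      C (C (Nat.multinomial Finset.univ s : F)) * x = C (C (Nat.multinomial Finset.univ s : F)) * y →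
      x = y := by
    intro x y h
    refine mul_left_cancel₀ ?_ h
    rw [Ne, C_eq_zero, C_eq_zero]
    exact_mod_cast (Nat.multinomial_pos Finset.univ s).ne'
  apply hinj
  rw [← hC]
  unfold gq
  rw [prod_pow_groups ga (fun j => (C (Fin.append (fun j => (X j : MvPolynomial (Fin r) F))
    (fun l => C (b l)) j) * ∏ i, X i ^ (Fin.append v w) j i :
    MvPolynomial (Fin N) (MvPolynomial (Fin r) F))) s, Finset.mul_sum]
  refine Finset.sum_congr rfl fun γ _ => ?_
  by_cases h : gs ga γ = s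
  swap
  · rw [if_neg h, if_neg h, mul_zero]
  rw [if_pos h, if_pos h, term_mono', Fin.prod_univ_add]
  simp only [Fin.append_left, Fin.append_right]
  have h1 : ∏ l, (C (b l) : MvPolynomial (Fin r) F) ^ γ (Fin.natAdd r l) =
      C (∏ l, b l ^ γ (Fin.natAdd r l)) := by
    rw [map_prod]
    exact Finset.prod_congr rfl fun i _ => (map_pow _ _ _).symm
  rw [h1, prod_X_ym (fun j => γ (Fin.castAdd q j)), mul_comm (monomial _ _) (C _), C_mul_monomial,
    ← map_natCast (C (σ := Fin N) (R := MvPolynomial (Fin r) F)),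
    C_mul_monomial, ← map_natCast (C (σ := Fin r) (R := F)), C_mul_monomial, mul_one,
    C_mul_monomial, C_mul_monomial, mlF_eq ga s γ h, mul_assoc]

lemma coeff_gq [CharZero F] (ga : Fin (r + q) → Fin (P+1)) (v : Fin r → Fin N → ℕ)
    (w : Fin q → Fin N → ℕ) (b : Fin q → F) (s : Fin (P+1) → ℕ) (e : Fin N →₀ ℕ) :
    open scoped Classical in
    coeff e (∏ k, gq ga v w b k ^ s k) = ∑ γ ∈ Finset.piAntidiag Finset.univ (∑ k, s k),
      if gs ga γ = s ∧ Ex (Fin.append v w) γ = e then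
        monomial (ym (fun j => γ (Fin.castAdd q j)))
          (mlF F s γ * ∏ l, b l ^ γ (Fin.natAdd r l)) else 0 := by
  classical
  rw [gq_prod, coeff_sum]
  refine Finset.sum_congr rfl fun γ _ => ?_
  by_cases h : gs ga γ = s
  · rw [if_pos h, coeff_monomial]
    by_cases h' : Ex (Fin.append v w) γ = e
    · rw [if_pos h', if_pos ⟨h, h'⟩]
    · rw [if_neg h', if_neg (fun h'' => h' h''.2)]
  · rw [if_neg h, if_neg (fun h'' => h h''.1), coeff_zero]

/-! ### the left side -/

lemma gs_append {K : Type} [AddCommMonoid K] (g : Fin r → Fin (P+1)) (gw : Fin q → Fin (P+1))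
    (c : Fin (r + q) → K) (k : Fin (P+1)) : gs (Fin.append g gw) c k =
      gs g (fun j => c (Fin.castAdd q j)) k + gs gw (fun l => c (Fin.natAdd r l)) k := by
  unfold gs
  rw [Fin.sum_univ_add]
  simp only [Fin.append_left, Fin.append_right]

lemma gs_ap (g : Fin r → Fin (P+1)) (gw : Fin q → Fin (P+1)) (u : Fin r → ℕ) :
    gs (Fin.append g gw) (ap q u) = gs g u := by
  funext k
  rw [gs_append]
  simp only [ap_left, ap_right]
  have : gs gw (fun _ => 0) k = (0 : ℕ) := by simp [gs]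
  rw [this, add_zero]

lemma gs_sub' {n : ℕ} (g : Fin n → Fin (P+1)) (u γ : Fin n → ℕ) (k : Fin (P+1)) :
    gs g (fun j => (γ j : ℤ) - u j) k = ((gs g γ k : ℕ) : ℤ) - ((gs g u k : ℕ) : ℤ) :=
  Pool.Agent.W423.MG.gs_sub g u γ k

open Classical in
/-- the coefficient of `A` belonging to `c` -/
noncomputable def aX (ga : Fin (r + q) → Fin (P+1)) (v : Fin r → Fin N → ℕ)
    (w : Fin q → Fin N → ℕ) (b : Fin q → F)
    (A : MvPolynomial (Fin N) (MvPolynomial (Fin r) F))
    (μ0 : Fin r →₀ ℕ) (c : Fin (r + q) → ℤ) : F :=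
  if (∀ k, gs ga c k = 0) ∧ (∀ i, Sh (Fin.append v w) c i ≤ 0) ∧
      (∀ j, c (Fin.castAdd q j) ≤ μ0 j) then
    coeff (mu μ0 (fun j => c (Fin.castAdd q j))) (coeff (gam (Fin.append v w) c) A) * cb b c
  else 0

lemma coeff_lhsX [CharZero F] (g : Fin r → Fin (P+1)) (gw : Fin q → Fin (P+1))
    (v : Fin r → Fin N → ℕ) (w : Fin q → Fin N → ℕ) (b : Fin q → F)
    (A : MvPolynomial (Fin N) (MvPolynomial (Fin r) F))
    (μ0 : Fin r →₀ ℕ) (u : Fin r → ℕ) :
    coeff (ym u + μ0) (coeff (Ex v u) (A * ∏ k, gq (Fin.append g gw) v w b k ^ gs g u k)) =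
      ∑ γ ∈ Finset.piAntidiag Finset.univ (∑ j, u j),
        aX (Fin.append g gw) v w b A μ0 (fun j => (γ j : ℤ) - ap q u j) *
          mlF F (gs g u) γ := by
  classical
  rw [gq_prod, Finset.mul_sum, coeff_sum, coeff_sum, sum_gs]
  refine Finset.sum_congr rfl fun γ _ => ?_
  have hg : gs (Fin.append g gw) γ = gs g u ↔
      ∀ k, gs (Fin.append g gw) (fun j => (γ j : ℤ) - ap q u j) k = 0 := by
    rw [funext_iff]
    refine forall_congr' fun k => ?_
    rw [gs_sub', gs_ap]
    omega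
  unfold aX
  by_cases hgg : gs (Fin.append g gw) γ = gs g u
  swap
  · rw [if_neg hgg, if_neg (fun h => hgg (hg.2 h.1)), mul_zero, coeff_zero, coeff_zero, zero_mul]
  rw [if_pos hgg, coeff_mul_monomial']
  have hsh := shift_ex (Fin.append v w) (ap q u) γ
  rw [Ex_ap] at hsh
  rw [cb_ap]
  simp only [ap_left]
  by_cases hle : Ex (Fin.append v w) γ ≤ Ex v u
  · have h3 : ∀ i, Sh (Fin.append v w) (fun j => (γ j : ℤ) - ap q u j) i ≤ 0 := by
      intro i
      have h4 := hle i
      have h5 := hsh i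
      omega
    rw [if_pos hle, coeff_mul_monomial']
    by_cases hy : ∀ j, (γ (Fin.castAdd q j) : ℤ) - u j ≤ μ0 j
    · rw [if_pos ((ym_le u (fun j => γ (Fin.castAdd q j)) μ0).2 hy), if_pos ⟨hg.1 hgg, h3, hy⟩,
        ym_sub u (fun j => γ (Fin.castAdd q j)) μ0 hy]
      have h6 : Ex v u - Ex (Fin.append v w) γ =
          gam (Fin.append v w) (fun j => (γ j : ℤ) - ap q u j) := by
        ext i
        have h4 := hle i
        have h5 := hsh i
        simp only [gam, Finsupp.equivFunOnFinite_symm_apply_apply, Finsupp.tsub_apply]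
        omega
      rw [h6]
      ring
    · rw [if_neg (fun h => hy ((ym_le u (fun j => γ (Fin.castAdd q j)) μ0).1 h)),
        if_neg (fun h => hy h.2.2), zero_mul]
  · have h3 : ¬ ∀ i, Sh (Fin.append v w) (fun j => (γ j : ℤ) - ap q u j) i ≤ 0 := by
      intro h4
      apply hle
      intro i
      have h5 := hsh i
      have h6 := h4 i
      omega
    rw [if_neg hle, if_neg (fun h => h3 h.2.1), zero_mul, coeff_zero]

/-! ### the right side -/

open Classical in
/-- the polynomial belonging to `c` -/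
noncomputable def gX (ga : Fin (r + q) → Fin (P+1)) (v : Fin r → Fin N → ℕ)
    (w : Fin q → Fin N → ℕ) (b : Fin q → F) (m : Fin (P+1) → ℕ)
    (D : Finset (Fin N → ℤ))
    (Q : (Fin N → ℤ) → MvPolynomial (Fin N) (MvPolynomial (Fin r) F)) (μ0 : Fin r →₀ ℕ)
    (c : Fin (r + q) → ℤ) : MvPolynomial (Fin N) F :=
  if (∀ k, gs ga c k = m k) ∧ Sh (Fin.append v w) c ∈ D ∧ ∀ j, c (Fin.castAdd q j) ≤ μ0 j then
    C (cb b c) * Qy (mu μ0 (fun j => c (Fin.castAdd q j))) (Q (Sh (Fin.append v w) c)) else 0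

lemma coeff_rhsX [CharZero F] {ι : Type} (g : Fin r → Fin (P+1)) (gw : Fin q → Fin (P+1))
    (v : Fin r → Fin N → ℕ) (w : Fin q → Fin N → ℕ) (b : Fin q → F) (m : Fin (P+1) → ℕ)
    (D : Finset (Fin N → ℤ)) (T : Finset ι)
    (Q : ι → (Fin N → ℤ) → MvPolynomial (Fin N) (MvPolynomial (Fin r) F))
    (μ0 : Fin r →₀ ℕ) (wt : ι → F) (u : Fin r → ℕ) :
    coeff (ym u + μ0) (∑ β ∈ T, C (wt β) * ∑ δ ∈ D,
      if ∀ i, 0 ≤ (Ex v u i : ℤ) + δ i then
          eval (fun i => C ((((Ex v u i : ℤ) + δ i : ℤ)) : F)) (Q β δ) *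
          C (∏ i, ((((Ex v u i : ℤ) + δ i).toNat.descFactorial (δ i).toNat : ℕ) : F)) *
          coeff (ed (Ex v u) δ) (∏ k, gq (Fin.append g gw) v w b k ^ (gs g u k + m k)) else 0) =
      ∑ γ ∈ Finset.piAntidiag Finset.univ (∑ j, u j + ∑ k, m k),
        mlF F (fun k => gs g u k + m k) γ *
        ∑ β ∈ T, wt β *
          (eval (fun x => ((Ex (Fin.append v w) γ x : ℕ) : F))
            (gX (Fin.append g gw) v w b m D (Q β) μ0 (fun j => (γ j : ℤ) - ap q u j)) *
          ∏ x, ((Ex (Fin.append v w) γ x).descFactorial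
            (Sh (Fin.append v w) (fun j => (γ j : ℤ) - ap q u j) x).toNat : F)) := by
  classical
  rw [coeff_sum]
  have hsum : ∑ k, (gs g u k + m k) = ∑ j, u j + ∑ k, m k := by
    rw [Finset.sum_add_distrib, sum_gs]
  have hm : ∀ β ∈ T, coeff (ym u + μ0) (C (wt β) * ∑ δ ∈ D,
      if ∀ i, 0 ≤ (Ex v u i : ℤ) + δ i then
          eval (fun i => C ((((Ex v u i : ℤ) + δ i : ℤ)) : F)) (Q β δ) *
          C (∏ i, ((((Ex v u i : ℤ) + δ i).toNat.descFactorial (δ i).toNat : ℕ) : F)) *
          coeff (ed (Ex v u) δ) (∏ k, gq (Fin.append g gw) v w b k ^ (gs g u k + m k)) else 0) =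
      ∑ γ ∈ Finset.piAntidiag Finset.univ (∑ j, u j + ∑ k, m k), wt β *
        (mlF F (fun k => gs g u k + m k) γ *
          (eval (fun x => ((Ex (Fin.append v w) γ x : ℕ) : F))
            (gX (Fin.append g gw) v w b m D (Q β) μ0 (fun j => (γ j : ℤ) - ap q u j)) *
          ∏ x, ((Ex (Fin.append v w) γ x).descFactorial
            (Sh (Fin.append v w) (fun j => (γ j : ℤ) - ap q u j) x).toNat : F))) := by
    intro β _
    rw [coeff_C_mul, coeff_sum, ← Finset.mul_sum]
    congr 1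
    -- one δ
    have h1 : ∀ δ ∈ D, coeff (ym u + μ0) (if ∀ i, 0 ≤ (Ex v u i : ℤ) + δ i then
          eval (fun i => C ((((Ex v u i : ℤ) + δ i : ℤ)) : F)) (Q β δ) *
          C (∏ i, ((((Ex v u i : ℤ) + δ i).toNat.descFactorial (δ i).toNat : ℕ) : F)) *
          coeff (ed (Ex v u) δ) (∏ k, gq (Fin.append g gw) v w b k ^ (gs g u k + m k)) else 0) =
        ∑ γ ∈ Finset.piAntidiag Finset.univ (∑ j, u j + ∑ k, m k),
          if Sh (Fin.append v w) (fun j => (γ j : ℤ) - ap q u j) = δ then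
          (mlF F (fun k => gs g u k + m k) γ *
          (eval (fun x => ((Ex (Fin.append v w) γ x : ℕ) : F))
            (if (∀ k, gs (Fin.append g gw) (fun j => (γ j : ℤ) - ap q u j) k = m k) ∧
                ∀ j, (γ (Fin.castAdd q j) : ℤ) - u j ≤ μ0 j then
            C (∏ l, b l ^ γ (Fin.natAdd r l)) *
              Qy (mu μ0 (fun j => (γ (Fin.castAdd q j) : ℤ) - u j)) (Q β δ) else 0) *
          ∏ x, ((Ex (Fin.append v w) γ x).descFactorial (δ x).toNat : F))) else 0 := by
      intro δ _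
      have h2 : ∀ γ : Fin (r + q) → ℕ,
          Sh (Fin.append v w) (fun j => (γ j : ℤ) - ap q u j) = δ ↔
          (∀ i, 0 ≤ (Ex v u i : ℤ) + δ i) ∧ Ex (Fin.append v w) γ = ed (Ex v u) δ := by
        intro γ
        have hsh := shift_ex (Fin.append v w) (ap q u) γ
        rw [Ex_ap] at hsh
        constructor
        · rintro rfl
          refine ⟨fun i => by rw [← hsh i]; omega, ?_⟩
          ext i
          rw [ed_apply, ← hsh i]
          omega
        · rintro ⟨h3, h4⟩
          funext i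
          have h5 := DFunLike.congr_fun h4 i
          rw [ed_apply] at h5
          have h6 := hsh i
          have h7 := h3 i
          omega
      split_ifs with hpos
      swap
      · rw [coeff_zero, Finset.sum_eq_zero]
        intro γ _
        rw [if_neg]
        intro h3
        exact hpos ((h2 γ).1 h3).1
      rw [coeff_gq, Finset.mul_sum, coeff_sum, hsum]
      refine Finset.sum_congr rfl fun γ _ => ?_
      by_cases hγ : Sh (Fin.append v w) (fun j => (γ j : ℤ) - ap q u j) = δ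
      swap
      · rw [if_neg hγ, if_neg (fun h3 => hγ ((h2 γ).2 ⟨hpos, h3.2⟩)), mul_zero, coeff_zero]
      rw [if_pos hγ]
      have hg' : gs (Fin.append g gw) γ = (fun k => gs g u k + m k) ↔
          ∀ k, gs (Fin.append g gw) (fun j => (γ j : ℤ) - ap q u j) k = m k := by
        rw [funext_iff]
        refine forall_congr' fun k => ?_
        rw [gs_sub', gs_ap]
        omega
      by_cases hgg : gs (Fin.append g gw) γ = (fun k => gs g u k + m k)
      swap
      · rw [if_neg (fun h => hgg h.1), if_neg (fun h => hgg (hg'.2 h.1))]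
        simp
      rw [if_pos ⟨hgg, ((h2 γ).1 hγ).2⟩]
      have hsh := shift_ex (Fin.append v w) (ap q u) γ
      rw [hγ, Ex_ap] at hsh
      have h8 : (fun i => (C ((((Ex v u i : ℤ) + δ i : ℤ)) : F) : MvPolynomial (Fin r) F)) =
          fun i => C (((Ex (Fin.append v w) γ i : ℕ) : F)) := by
        funext i
        rw [← hsh i]
        push_cast
        rfl
      have h9 : (∏ i, ((((Ex v u i : ℤ) + δ i).toNat.descFactorial (δ i).toNat : ℕ) : F)) =
          ∏ x, ((Ex (Fin.append v w) γ x).descFactorial (δ x).toNat : F) := by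
        refine Finset.prod_congr rfl fun i _ => ?_
        rw [← hsh i, Int.toNat_natCast]
      rw [h8, h9, coeff_mul_monomial']
      by_cases hy : ∀ j, (γ (Fin.castAdd q j) : ℤ) - u j ≤ μ0 j
      · rw [if_pos ((ym_le u (fun j => γ (Fin.castAdd q j)) μ0).2 hy), if_pos ⟨hg'.1 hgg, hy⟩,
          ym_sub u (fun j => γ (Fin.castAdd q j)) μ0 hy, coeff_mul_C', coeff_eval_C, map_mul,
          eval_C]
        ring
      · rw [if_neg (fun h => hy ((ym_le u (fun j => γ (Fin.castAdd q j)) μ0).1 h)),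
          if_neg (fun h => hy h.2)]
        simp
    rw [Finset.sum_congr rfl h1, Finset.sum_comm]
    refine Finset.sum_congr rfl fun γ _ => ?_
    unfold gX
    rw [cb_ap]
    simp only [ap_left]
    by_cases hD : Sh (Fin.append v w) (fun j => (γ j : ℤ) - ap q u j) ∈ D
    · rw [Finset.sum_ite_eq D (Sh (Fin.append v w) (fun j => (γ j : ℤ) - ap q u j)), if_pos hD]
      by_cases hy : (∀ k, gs (Fin.append g gw) (fun j => (γ j : ℤ) - ap q u j) k = m k) ∧
          ∀ j, (γ (Fin.castAdd q j) : ℤ) - u j ≤ μ0 j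
      · rw [if_pos hy, if_pos ⟨hy.1, hD, hy.2⟩]
      · rw [if_neg hy, if_neg (fun h => hy ⟨h.1, h.2.2⟩)]
    · rw [Finset.sum_ite_eq D (Sh (Fin.append v w) (fun j => (γ j : ℤ) - ap q u j)), if_neg hD,
        if_neg (fun h => hD h.2.1)]
      simp
  rw [Finset.sum_congr rfl hm, Finset.sum_comm]
  refine Finset.sum_congr rfl fun γ _ => ?_
  rw [Finset.mul_sum]
  refine Finset.sum_congr rfl fun β _ => ?_
  ring

/-! ### finiteness -/

lemma aX_fin (ga : Fin (r + q) → Fin (P+1)) (v : Fin r → Fin N → ℕ)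
    (w : Fin q → Fin N → ℕ) (b : Fin q → F)
    (A : MvPolynomial (Fin N) (MvPolynomial (Fin r) F)) (μ0 : Fin r →₀ ℕ) :
    ({c : Fin (r + q) → ℤ | (∀ l : Fin q, 0 ≤ c (Fin.natAdd r l)) ∧
      aX ga v w b A μ0 c ≠ 0} : Set _).Finite := by
  classical
  refine (Pool.Agent.W368.SV.fin_of μ0
    (A.support.biUnion fun g => (coeff g A).support) 0).subset ?_
  rintro c ⟨h1, hc⟩
  simp only [aX] at hc
  split_ifs at hc with h0
  · refine ⟨h1, ?_, h0.2.2, ?_⟩
    · rw [← sum_gs ga c]
      exact Finset.sum_eq_zero fun k _ => h0.1 k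
    have hc' := left_ne_zero_of_mul hc
    rw [Finset.mem_biUnion]
    refine ⟨gam (Fin.append v w) c, mem_support_iff.2 fun h => hc' (by rw [h, coeff_zero]),
      mem_support_iff.2 hc'⟩
  · exact absurd rfl hc

lemma gX_fin {ι : Type} (ga : Fin (r + q) → Fin (P+1)) (v : Fin r → Fin N → ℕ)
    (w : Fin q → Fin N → ℕ) (b : Fin q → F) (m : Fin (P+1) → ℕ)
    (D : Finset (Fin N → ℤ)) (T : Finset ι)
    (Q : ι → (Fin N → ℤ) → MvPolynomial (Fin N) (MvPolynomial (Fin r) F)) (μ0 : Fin r →₀ ℕ) :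
    ({c : Fin (r + q) → ℤ | (∀ l : Fin q, 0 ≤ c (Fin.natAdd r l)) ∧
      ∃ β ∈ T, gX ga v w b m D (Q β) μ0 c ≠ 0} : Set _).Finite := by
  classical
  refine (Pool.Agent.W368.SV.fin_of μ0
    (T.biUnion fun β => D.biUnion fun δ => (Q β δ).support.biUnion fun g =>
    (coeff g (Q β δ)).support) ((∑ k, m k : ℕ) : ℤ)).subset ?_
  rintro c ⟨h1', β, hβ, hc⟩
  simp only [gX] at hc
  split_ifs at hc with h0
  · refine ⟨h1', ?_, h0.2.2, ?_⟩
    · rw [← sum_gs ga c]
      push_cast
      exact Finset.sum_congr rfl fun k _ => h0.1 k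
    have hc' := right_ne_zero_of_mul hc
    have h1 : ∃ g ∈ (Q β (Sh (Fin.append v w) c)).support,
        coeff (mu μ0 (fun j => c (Fin.castAdd q j)))
          (coeff g (Q β (Sh (Fin.append v w) c))) ≠ 0 := by
      by_contra hcon
      push Not at hcon
      apply hc'
      unfold Qy
      refine Finset.sum_eq_zero fun g hg => ?_
      rw [hcon g hg, monomial_zero]
    obtain ⟨g, hg, hg2⟩ := h1
    simp only [Finset.mem_biUnion]
    exact ⟨β, hβ, Sh (Fin.append v w) c, h0.2.1, g, hg, mem_support_iff.2 hg2⟩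
  · exact absurd rfl hc

end Pool.Agent.W959.NX
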