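import Pool.Agent.W959.NX.NumA

set_option autoImplicit false

/-! Project NX of helper423, part NUM: clearing the factorials. -/

namespace Pool.Agent.W959.NX

open MvPolynomial Pool.Agent.H628R4.TZ Pool.Agent.W425.SM Pool.Agent.W525.SM
open Pool.Agent.W596.SL (reindex shift_ex fq_zero gam)
open Pool.Agent.W462.SG (ym ym_apply term_mono' mu ym_le ym_sub mu_fin)
open Pool.Agent.W368.SV (prod_X_ym cb ap ap_left ap_right ap_sum Ex_ap cb_ap Qy coeff_mul_C'
  coeff_eval_C cast_eval exists_mu)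
open Pool.Agent.W423.MG (gs sum_gs prod_pow_groups)
open Pool.Agent.W372.SG (ed ed_apply)
open Pool.Agent.W423.NX

variable {r N q P : ℕ} {F : Type} [Field F] [Algebra F ℂ]

lemma clearX {n : ℕ} (s : Fin (P+1) → ℕ) (u : Fin n → ℕ) (M : ℕ) (c : Fin n → ℤ)
    (hM : ∀ j, c j ≤ M) (hpos : ∀ j, 0 ≤ (u j : ℤ) + c j) :
    (∏ j, ((u j + M).factorial : ℂ)) *
        algebraMap F ℂ (mlF F s (fun j => ((u j : ℤ) + c j).toNat)) =
      (∏ k, ((s k).factorial : ℂ)) *
        ∏ j, eval (fun m => (u m : ℂ)) (ff M j (c j) * fq M j (c j)) := by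
  set γ : Fin n → ℕ := fun j => ((u j : ℤ) + c j).toNat with hγ
  have h18 : (∏ j, ((u j + M).factorial : ℂ)) = (∏ j, ((γ j).factorial : ℂ)) *
      ∏ j, eval (fun m => (u m : ℂ)) (ff M j (c j) * fq M j (c j)) := by
    rw [← Finset.prod_mul_distrib]
    exact (Finset.prod_congr rfl fun j _ => eval_fc u M j (c j) (hM j) (hpos j)).symm
  have h5 : (∏ j, ((γ j).factorial : ℂ)) ≠ 0 :=
    Finset.prod_ne_zero_iff.2 fun j _ => by exact_mod_cast Nat.factorial_ne_zero _
  have h6 : algebraMap F ℂ (mlF F s γ) =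
      (∏ k, ((s k).factorial : ℂ)) * (∏ j, ((γ j).factorial : ℂ))⁻¹ := by
    unfold mlF
    rw [map_mul, map_inv₀, map_prod, map_prod]
    simp only [map_natCast]
  rw [h18, h6]
  field_simp

theorem num_lhsX [CharZero F] (g : Fin r → Fin (P+1)) (gw : Fin q → Fin (P+1))
    (v : Fin r → Fin N → ℕ) (w : Fin q → Fin N → ℕ) (b : Fin q → F)
    (A : MvPolynomial (Fin N) (MvPolynomial (Fin r) F)) (μ0 : Fin r →₀ ℕ) :
    ∃ (S : Finset (Fin (r + q) → ℤ)), (∀ c, c ∈ S ↔ (∀ l : Fin q, 0 ≤ c (Fin.natAdd r l)) ∧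
        aX (Fin.append g gw) v w b A μ0 c ≠ 0) ∧
      ∀ (M : ℕ), (∀ c ∈ S, ∀ j, c j ≤ M) → ∀ (u : Fin r → ℕ),
        (∏ j, ((ap q u j + M).factorial : ℂ)) *
          (algebraMap F ℂ (coeff (ym u + μ0) (coeff (Ex v u)
            (A * ∏ k, gq (Fin.append g gw) v w b k ^ gs g u k)))) =
          (∏ k, ((gs g u k).factorial : ℂ)) * ∑ c ∈ S,
            (algebraMap F ℂ (aX (Fin.append g gw) v w b A μ0 c)) *
          (∏ j, eval (fun m => (ap q u m : ℂ)) (ff M j (c j) * fq M j (c j))) := by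
  classical
  have hfin := aX_fin (Fin.append g gw) v w b A μ0
  have hprop : ∀ c, aX (Fin.append g gw) v w b A μ0 c ≠ 0 →
      ∀ k, gs (Fin.append g gw) c k = 0 := by
    intro c hc
    by_contra h
    apply hc
    unfold aX
    rw [if_neg (fun h' => h h'.1)]
  refine ⟨hfin.toFinset, fun c => Set.Finite.mem_toFinset hfin, fun M hM u => ?_⟩
  have h5 := reindex (ap q u) 0 hfin.toFinset
    (fun γ => (algebraMap F ℂ (aX (Fin.append g gw) v w b A μ0
      (fun j => (γ j : ℤ) - ap q u j))) * algebraMap F ℂ (mlF F (gs g u) γ))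
    (fun c hc => by
      have := hprop c ((Set.Finite.mem_toFinset hfin).1 hc).2
      rw [← sum_gs (Fin.append g gw) c]
      simp [this]) (by
    intro γ hγ hne
    rw [Set.Finite.mem_toFinset]
    refine ⟨fun l => by simp [ap_right], ?_⟩
    intro h
    exact left_ne_zero_of_mul hne (by rw [h, map_zero]))
  rw [coeff_lhsX, map_sum]
  simp only [map_mul]
  rw [add_zero, ap_sum] at h5
  rw [h5, Finset.mul_sum, Finset.mul_sum]
  refine Finset.sum_congr rfl fun c hc => ?_
  split_ifs with hpos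
  swap
  · push Not at hpos
    obtain ⟨j, hj⟩ := hpos
    have hz : ∏ j, eval (fun m => (ap q u m : ℂ)) (ff M j (c j) * fq M j (c j)) = 0 :=
      Finset.prod_eq_zero (Finset.mem_univ j) (eval_fc_zero (ap q u) M j (c j) hj)
    simp only [map_mul] at hz
    rw [hz]
    simp
  have hcl := clearX (F := F) (gs g u) (ap q u) M c (hM c hc) hpos
  have hc' : (fun j => (((((ap q u j : ℤ) + c j).toNat) : ℕ) : ℤ) - ap q u j) = c := by
    funext j
    rw [Int.toNat_of_nonneg (hpos j)]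
    ring
  simp only [map_mul] at hcl
  rw [hc', mul_left_comm, hcl]
  ring

lemma fact_add (s m : ℕ) : (((s + m).factorial : ℕ) : ℂ) =
    (∏ i ∈ Finset.range m, ((s : ℂ) + i + 1)) * (s.factorial : ℂ) := by
  induction m with
  | zero => simp
  | succ m ih =>
    rw [Finset.prod_range_succ, ← add_assoc, Nat.factorial_succ]
    push_cast
    rw [ih]
    ring

theorem num_rhsX [CharZero F] {ι : Type} (g : Fin r → Fin (P+1)) (gw : Fin q → Fin (P+1))
    (v : Fin r → Fin N → ℕ) (w : Fin q → Fin N → ℕ) (b : Fin q → F) (m : Fin (P+1) → ℕ)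
    (D : Finset (Fin N → ℤ)) (T : Finset ι)
    (Q : ι → (Fin N → ℤ) → MvPolynomial (Fin N) (MvPolynomial (Fin r) F))
    (μ0 : Fin r →₀ ℕ) :
    ∃ (S : Finset (Fin (r + q) → ℤ)), (∀ c ∈ S, (∀ l : Fin q, 0 ≤ c (Fin.natAdd r l)) ∧
        ∀ k, gs (Fin.append g gw) c k = m k) ∧
      ∀ (M : ℕ), (∀ c ∈ S, ∀ j, c j ≤ M) → ∀ (u : Fin r → ℕ) (wt : ι → F),
        (∏ j, ((ap q u j + M).factorial : ℂ)) *
        (algebraMap F ℂ (coeff (ym u + μ0) (∑ β ∈ T, C (wt β) * ∑ δ ∈ D,
      if ∀ i, 0 ≤ (Ex v u i : ℤ) + δ i then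
          eval (fun i => C ((((Ex v u i : ℤ) + δ i : ℤ)) : F)) (Q β δ) *
          C (∏ i, ((((Ex v u i : ℤ) + δ i).toNat.descFactorial (δ i).toNat : ℕ) : F)) *
          coeff (ed (Ex v u) δ) (∏ k, gq (Fin.append g gw) v w b k ^ (gs g u k + m k))
          else 0))) =
          (∏ k, ((gs g u k).factorial : ℂ)) *
          ((∏ k, ∏ i ∈ Finset.range (m k), (((gs g u k : ℕ) : ℂ) + i + 1)) * ∑ c ∈ S,
          (∏ j, eval (fun m => (ap q u m : ℂ)) (ff M j (c j) * fq M j (c j))) *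
          (∏ i, (((∑ j, u j * v j i : ℕ) + Sh (Fin.append v w) c i).toNat.descFactorial
            (Sh (Fin.append v w) c i).toNat : ℂ)) *
          ∑ β ∈ T, algebraMap F ℂ (wt β) *
            eval (fun x => ((Ex v u x : ℕ) : ℂ) + ((Sh (Fin.append v w) c x : ℤ) : ℂ))
              (map (algebraMap F ℂ) (gX (Fin.append g gw) v w b m D (Q β) μ0 c))) := by
  classical
  have hfin := gX_fin (Fin.append g gw) v w b m D T Q μ0
  have hprop : ∀ c ∈ hfin.toFinset, ∀ k, gs (Fin.append g gw) c k = m k := by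
    intro c hc
    obtain ⟨β, _, hβ⟩ := ((Set.Finite.mem_toFinset hfin).1 hc).2
    by_contra h
    apply hβ
    unfold gX
    rw [if_neg (fun h' => h h'.1)]
  refine ⟨hfin.toFinset, fun c hc => ⟨((Set.Finite.mem_toFinset hfin).1 hc).1,
    hprop c hc⟩, fun M hM u wt => ?_⟩
  rw [coeff_rhsX]
  set Fu : (Fin (r + q) → ℕ) → ℂ := fun γ =>
    algebraMap F ℂ (mlF F (fun k => gs g u k + m k) γ) * ∑ β ∈ T, algebraMap F ℂ (wt β) *
      (eval (fun x => ((Ex (Fin.append v w) γ x : ℕ) : ℂ))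
        (map (algebraMap F ℂ) (gX (Fin.append g gw) v w b m D (Q β) μ0
          fun j => (γ j : ℤ) - ap q u j)) *
      ∏ x, ((Ex (Fin.append v w) γ x).descFactorial
        (Sh (Fin.append v w) (fun j => (γ j : ℤ) - ap q u j) x).toNat : ℂ)) with hF
  have h2 : (algebraMap F ℂ (∑ γ ∈ Finset.piAntidiag Finset.univ (∑ j, u j + ∑ k, m k),
        mlF F (fun k => gs g u k + m k) γ *
        ∑ β ∈ T, wt β *
          (eval (fun x => ((Ex (Fin.append v w) γ x : ℕ) : F))
            (gX (Fin.append g gw) v w b m D (Q β) μ0 (fun j => (γ j : ℤ) - ap q u j)) *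
          ∏ x, ((Ex (Fin.append v w) γ x).descFactorial
            (Sh (Fin.append v w) (fun j => (γ j : ℤ) - ap q u j) x).toNat : F))))
      = ∑ γ ∈ Finset.piAntidiag Finset.univ (∑ j, u j + ∑ k, m k), Fu γ := by
    rw [hF, map_sum]
    refine Finset.sum_congr rfl fun γ _ => ?_
    rw [map_mul, map_sum]
    congr 1
    refine Finset.sum_congr rfl fun m _ => ?_
    rw [map_mul, map_mul, cast_eval, map_prod]
    simp only [map_natCast]
  have hsh := shift_ex (Fin.append v w) (ap q u)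
  have h5 := reindex (ap q u) (∑ k, m k) hfin.toFinset Fu (fun c hc => by
      rw [← sum_gs (Fin.append g gw) c]
      push_cast
      exact Finset.sum_congr rfl fun k _ => hprop c hc k) (by
    intro γ hγ hne
    rw [Set.Finite.mem_toFinset]
    refine ⟨fun l => by simp [ap_right], ?_⟩
    by_contra hno
    push Not at hno
    apply hne
    rw [hF]
    simp only
    rw [Finset.sum_eq_zero, mul_zero]
    intro m hm
    rw [hno m hm]
    simp)
  rw [ap_sum] at h5
  rw [h2, h5, Finset.mul_sum, Finset.mul_sum, Finset.mul_sum]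
  refine Finset.sum_congr rfl fun c hc => ?_
  split_ifs with hpos
  swap
  · push Not at hpos
    obtain ⟨j, hj⟩ := hpos
    have hz : ∏ j, eval (fun m => (ap q u m : ℂ)) (ff M j (c j) * fq M j (c j)) = 0 :=
      Finset.prod_eq_zero (Finset.mem_univ j) (eval_fc_zero (ap q u) M j (c j) hj)
    rw [hz]
    simp
  have h10 : ∀ j, ((((ap q u j : ℤ) + c j).toNat : ℕ) : ℤ) = (ap q u j : ℤ) + c j :=
    fun j => Int.toNat_of_nonneg (hpos j)
  have hcl := clearX (F := F) (fun k => gs g u k + m k) (ap q u) M c (hM c hc) hpos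
  set γ : Fin (r + q) → ℕ := fun j => ((ap q u j : ℤ) + c j).toNat with hγ
  have hc' : (fun j => (γ j : ℤ) - ap q u j) = c := by
    funext j
    rw [hγ]
    simp only
    rw [h10]
    ring
  have hshc := hsh γ
  rw [hc', Ex_ap] at hshc
  rw [hF]
  simp only
  rw [hc']
  have h14 : ∀ x, ((Ex (Fin.append v w) γ x : ℕ) : ℂ) =
      ((Ex v u x : ℕ) : ℂ) + ((Sh (Fin.append v w) c x : ℤ) : ℂ) := by
    intro x
    exact_mod_cast hshc x
  simp only [h14]
  have h15 : ∏ x, ((Ex (Fin.append v w) γ x).descFactorial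
        (Sh (Fin.append v w) c x).toNat : ℂ) =
      ∏ i, (((∑ j, u j * v j i : ℕ) + Sh (Fin.append v w) c i).toNat.descFactorial
            (Sh (Fin.append v w) c i).toNat : ℂ) := by
    refine Finset.prod_congr rfl fun i _ => ?_
    have h16 := hshc i
    rw [Ex_apply v u] at h16
    have h17 : Ex (Fin.append v w) γ i =
        (((∑ j, u j * v j i : ℕ) : ℤ) + Sh (Fin.append v w) c i).toNat := by omega
    rw [h17]
  have h12 : (∏ k, (((gs g u k + m k).factorial : ℕ) : ℂ)) =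
      (∏ k, ∏ i ∈ Finset.range (m k), (((gs g u k : ℕ) : ℂ) + i + 1)) *
        ∏ k, ((gs g u k).factorial : ℂ) := by
    rw [← Finset.prod_mul_distrib]
    exact Finset.prod_congr rfl fun k _ => fact_add _ _
  rw [h12] at hcl
  rw [h15, ← mul_assoc, hcl]
  simp only [Finset.mul_sum]
  refine Finset.sum_congr rfl fun m _ => ?_
  ring

omit [Algebra F ℂ] in
lemma aX_zero (ga : Fin (r + q) → Fin (P+1)) (v : Fin r → Fin N → ℕ) (w : Fin q → Fin N → ℕ)
    (b : Fin q → F) (A : MvPolynomial (Fin N) (MvPolynomial (Fin r) F))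
    (μ0 : Fin r →₀ ℕ) : aX ga v w b A μ0 0 = coeff μ0 (coeff 0 A) := by
  classical
  have h0 : ∀ i, Sh (Fin.append v w) 0 i = 0 := by intro i; simp [Sh]
  have h0' : ∀ k, gs ga (0 : Fin (r + q) → ℤ) k = 0 := by intro k; simp [gs]
  unfold aX
  rw [if_pos ⟨h0', fun i => (h0 i).le, fun j => by simp⟩]
  have h1 : gam (Fin.append v w) 0 = 0 := by
    ext i
    simp [gam, h0]
  have h2 : mu μ0 (fun j => (0 : Fin (r + q) → ℤ) (Fin.castAdd q j)) = μ0 := by
    ext j
    simp [mu]
  have h3 : cb b (0 : Fin (r + q) → ℤ) = 1 := by simp [cb]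
  rw [h1, h2, h3, mul_one]

/-- the combination of the witnesses -/
lemma combX (g : Fin r → Fin (P+1)) (gw : Fin q → Fin (P+1)) (v : Fin r → Fin N → ℕ)
    (w : Fin q → Fin N → ℕ)
    (hw : ∀ l : Fin q, ∃ lam : Fin r → ℝ, (∀ j, 0 ≤ lam j) ∧ (∀ j, g j ≠ gw l → lam j = 0) ∧
      ∑ j, lam j = 1 ∧ ∀ i, ∑ j, lam j * (v j i : ℝ) ≤ (w l i : ℝ)) (c : Fin (r + q) → ℤ)
    (hc : ∀ l : Fin q, 0 ≤ c (Fin.natAdd r l)) :
    ∃ l : Fin r → ℝ, (∀ j, 0 ≤ l j) ∧
      (∀ k, gs g (fun j => (c (Fin.castAdd q j) : ℝ) + l j) k =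
        ((gs (Fin.append g gw) c k : ℤ) : ℝ)) ∧
      ∀ i, ∑ j, ((c (Fin.castAdd q j) : ℝ) + l j) * (v j i : ℝ) ≤
        ((Sh (Fin.append v w) c i : ℤ) : ℝ) := by
  choose lam h1 h1' h2 h3 using hw
  refine ⟨fun j => ∑ l, (c (Fin.natAdd r l) : ℝ) * lam l j, fun j =>
    Finset.sum_nonneg fun l _ => mul_nonneg (by exact_mod_cast hc l) (h1 l j), fun k => ?_,
    fun i => ?_⟩
  · rw [gs_append]
    push_cast
    have e0 : gs g (fun j => (c (Fin.castAdd q j) : ℝ) +
        ∑ l, (c (Fin.natAdd r l) : ℝ) * lam l j) k =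
        gs g (fun j => (c (Fin.castAdd q j) : ℝ)) k +
        gs g (fun j => ∑ l, (c (Fin.natAdd r l) : ℝ) * lam l j) k := by
      unfold gs
      rw [← Finset.sum_add_distrib]
      exact Finset.sum_congr rfl fun j _ => by split_ifs <;> simp
    rw [e0]
    congr 1
    · unfold gs
      push_cast
      rfl
    · have e1 : gs g (fun j => ∑ l, (c (Fin.natAdd r l) : ℝ) * lam l j) k =
          ∑ l, (c (Fin.natAdd r l) : ℝ) * ∑ j, (if g j = k then lam l j else 0) := by
        unfold gs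
        simp only [Finset.mul_sum]
        rw [Finset.sum_comm]
        refine Finset.sum_congr rfl fun j _ => ?_
        split_ifs
        · rfl
        · simp
      rw [e1]
      have e2 : ∀ l, ∑ j, (if g j = k then lam l j else 0) = if gw l = k then 1 else 0 := by
        intro l
        by_cases h : gw l = k
        · rw [if_pos h, ← h2 l]
          refine Finset.sum_congr rfl fun j _ => ?_
          split_ifs with h'
          · rfl
          · exact (h1' l j (fun h'' => h' (h''.trans h))).symm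
        · rw [if_neg h]
          refine Finset.sum_eq_zero fun j _ => ?_
          split_ifs with h'
          · exact h1' l j (fun h'' => h (h''.symm.trans h'))
          · rfl
      simp only [e2]
      unfold gs
      push_cast
      refine Finset.sum_congr rfl fun l _ => ?_
      split_ifs <;> simp
  · rw [Pool.Agent.W342.SH.Sh_split]
    push_cast
    simp only [add_mul, Finset.sum_add_distrib]
    have e1 : ∑ j, (∑ l, (c (Fin.natAdd r l) : ℝ) * lam l j) * (v j i : ℝ) =
        ∑ l, (c (Fin.natAdd r l) : ℝ) * ∑ j, lam l j * (v j i : ℝ) := by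
      simp only [Finset.sum_mul, Finset.mul_sum]
      rw [Finset.sum_comm]
      exact Finset.sum_congr rfl fun _ _ => Finset.sum_congr rfl fun _ _ => by ring
    rw [e1]
    have e2 : ∑ l, (c (Fin.natAdd r l) : ℝ) * ∑ j, lam l j * (v j i : ℝ) ≤
        ∑ l, (c (Fin.natAdd r l) : ℝ) * (w l i : ℝ) :=
      Finset.sum_le_sum fun l _ => mul_le_mul_of_nonneg_left (h3 l i) (by exact_mod_cast hc l)
    linarith

end Pool.Agent.W959.NX
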